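import Pool.Agent.TH824.BK.Mats
import Pool.Agent.TH419.BK.J3

/-!
BK-J9 (for helper824, MP_5ae62c_nt): an explicit function on `P^1(F_8)`, lifted to `GL_2(O_v)`,
`v = (t^3+t+1)`.
-/

open Polynomial IsDedekindDomain Matrix MeasureTheory
open scoped WithZero RestrictedProduct

noncomputable section
namespace TH824.BK


/-- `X^3+X+1` -/
def P3 : Rx := X ^ 3 + X + 1

namespace J9

lemma P3_monic : P3.Monic := by
  unfold P3
  have : (X ^ 3 + X + 1 : Rx) = X ^ 3 + (X + 1) := by ring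
  rw [this]
  monicity!

lemma P3_natDegree : P3.natDegree = 3 := by
  unfold P3
  compute_degree!

end J9

theorem P3_irr : Irreducible P3 := by
  rw [J9.P3_monic.irreducible_iff_roots_eq_zero_of_degree_le_three
    (by rw [J9.P3_natDegree]; norm_num) (by rw [J9.P3_natDegree])]
  rw [Multiset.eq_zero_iff_forall_notMem]
  intro a ha
  rw [mem_roots J9.P3_monic.ne_zero] at ha
  revert ha
  unfold P3
  simp only [IsRoot.def, eval_add, eval_pow, eval_X, eval_one]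
  revert a
  decide

/-- the place of degree 3 -/
def v3 : Pl := ⟨Ideal.span {P3}, (Ideal.span_singleton_prime P3_irr.ne_zero).mpr P3_irr.prime,
  by rw [Ne, Ideal.span_singleton_eq_bot]; exact P3_irr.ne_zero⟩

/-- polynomials in the completion -/
def cst (r : Rx) : Kv v3 := algebraMap Kx (Kv v3) (algebraMap Rx Kx r)

open Classical in
/-- an explicit function on `P^1(F_8)`, evaluated at the class of the first column -/
def cfun (k : GL (Fin 2) (Kv v3)) : ℂ :=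
  if Valued.v ((k : Matrix (Fin 2) (Fin 2) (Kv v3)) 0 0 -
        cst (X ^ 2 + X) * (k : Matrix (Fin 2) (Fin 2) (Kv v3)) 1 0) < 1 ∨
     Valued.v ((k : Matrix (Fin 2) (Fin 2) (Kv v3)) 0 0 -
        cst (X ^ 2 + X + 1) * (k : Matrix (Fin 2) (Fin 2) (Kv v3)) 1 0) < 1 then 1
  else if Valued.v ((k : Matrix (Fin 2) (Fin 2) (Kv v3)) 0 0 -
        cst (X ^ 2) * (k : Matrix (Fin 2) (Fin 2) (Kv v3)) 1 0) < 1 ∨
     Valued.v ((k : Matrix (Fin 2) (Fin 2) (Kv v3)) 0 0 -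
        cst (X ^ 2 + 1) * (k : Matrix (Fin 2) (Fin 2) (Kv v3)) 1 0) < 1 then -1
  else 0

namespace J9

/-- the companion matrix of `X^3+X+1` -/
def Mm : Matrix (Fin 3) (Fin 3) (ZMod 2) := !![0, 0, 1; 1, 0, 1; 0, 1, 0]

/-- elements of `F_8` -/
def el (b : Fin 3 → ZMod 2) : Matrix (Fin 3) (Fin 3) (ZMod 2) :=
  b 0 • (1 : Matrix (Fin 3) (Fin 3) (ZMod 2)) + b 1 • Mm + b 2 • (Mm * Mm)

/-- the function on pairs -/
def G (A C : Matrix (Fin 3) (Fin 3) (ZMod 2)) : ℤ :=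
  if A = (Mm * Mm + Mm) * C ∨ A = (Mm * Mm + Mm + 1) * C then 1
  else if A = (Mm * Mm) * C ∨ A = (Mm * Mm + 1) * C then -1 else 0

lemma G_n1 : ∀ b c : Fin 3 → ZMod 2, G (el b + el c) (el c) = G (el b) (el c) := by
  decide +kernel

lemma G_nt : ∀ b c : Fin 3 → ZMod 2, ¬ (el b = 0 ∧ el c = 0) →
    G (el b + Mm * el c) (el c) = - G (el b) (el c) := by
  decide +kernel

lemma G_star : ∀ b c : Fin 3 → ZMod 2, ¬ (el b = 0 ∧ el c = 0) →
    G (el b) (el c) + G (el c) (el b) + G (el c) (el b + el c) = 0 := by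
  decide +kernel

lemma aeval_P3 : aeval Mm P3 = 0 := by
  unfold P3
  simp only [map_add, map_pow, aeval_X, map_one]
  decide +kernel

lemma dvd_iff (r : Rx) : P3 ∣ r ↔ aeval Mm r = 0 := by
  have hmin : P3 = minpoly (ZMod 2) Mm :=
    minpoly.eq_of_irreducible_of_monic P3_irr aeval_P3 P3_monic
  rw [hmin, minpoly.dvd_iff]

lemma el_surj (r : Rx) : ∃ b, aeval Mm r = el b := by
  have h1 : aeval Mm r = aeval Mm (r %ₘ P3) := by
    conv_lhs => rw [← modByMonic_add_div r P3]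
    rw [map_add, map_mul, aeval_P3, zero_mul, add_zero]
  have hd : (r %ₘ P3).natDegree < 3 := by
    have h2 := natDegree_modByMonic_lt r P3_monic (by
      intro h
      have := congrArg natDegree h
      rw [P3_natDegree, natDegree_one] at this
      omega)
    rwa [P3_natDegree] at h2
  refine ⟨fun i => (r %ₘ P3).coeff i, ?_⟩
  rw [h1]
  conv_lhs => rw [(r %ₘ P3).as_sum_range' 3 hd]
  rw [map_sum]
  simp only [Finset.sum_range_succ, Finset.sum_range_zero, zero_add, ← C_mul_X_pow_eq_monomial,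
    map_mul, aeval_C, map_pow, aeval_X, el, pow_zero, pow_one, Algebra.algebraMap_eq_smul_one,
    smul_mul_assoc, one_mul, pow_two]
  rfl

lemma cst_lt (r : Rx) : Valued.v (cst r) < 1 ↔ P3 ∣ r := by
  unfold cst
  rw [v_alg, HeightOneSpectrum.valuation_lt_one_iff_mem]
  change r ∈ Ideal.span {P3} ↔ _
  rw [Ideal.mem_span_singleton]

lemma cst_le (r : Rx) : Valued.v (cst r) ≤ 1 := by
  unfold cst
  rw [v_alg]
  exact HeightOneSpectrum.valuation_le_one v3 r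

lemma cst_add (r s : Rx) : cst (r + s) = cst r + cst s := by simp [cst]
lemma cst_sub (r s : Rx) : cst (r - s) = cst r - cst s := by simp [cst]
lemma cst_mul (r s : Rx) : cst (r * s) = cst r * cst s := by simp [cst]

lemma approx (a : Kv v3) (ha : Valued.v a ≤ 1) : ∃ p : Rx, Valued.v (a - cst p) < 1 := by
  have hv : v3.valuation Kx (algebraMap Rx Kx P3) = WithZero.exp (-1 : ℤ) :=
    v_gen (v := v3) rfl P3_irr.ne_zero
  obtain ⟨k, hk⟩ := approx_exp (f := algebraMap Kx (Kv v3)) (dense_v v3) (algebraMap Rx Kx P3)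
    (by rw [v_alg]; exact hv) a 1
  have hlt : WithZero.exp (-((1 : ℕ) : ℤ)) < 1 := by
    rw [← WithZero.exp_zero, WithZero.exp_lt_exp]
    norm_num
  have hk1 : v3.valuation Kx k ≤ 1 := by
    rw [← v_alg]
    have h2 : algebraMap Kx (Kv v3) k = a - (a - algebraMap Kx (Kv v3) k) := by ring
    rw [h2]
    exact (Valuation.map_sub _ _ _).trans (max_le ha (hk.trans hlt.le))
  obtain ⟨c, hc⟩ := HeightOneSpectrum.exists_valuation_sub_lt_of_integer v3 hk1
    (Units.mk0 (WithZero.exp (-((1 : ℕ) : ℤ))) WithZero.exp_ne_zero)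
  rw [Units.val_mk0] at hc
  refine ⟨c, ?_⟩
  have h5 : a - cst c = (a - algebraMap Kx (Kv v3) k) +
      algebraMap Kx (Kv v3) (-(algebraMap Rx Kx c - k)) := by
    unfold cst
    rw [map_neg, map_sub]
    ring
  rw [h5]
  refine (Valuation.map_add _ _ _).trans_lt (max_lt (hk.trans_lt hlt) ?_)
  rw [v_alg, Valuation.map_neg]
  exact hc.trans hlt

lemma test {a c : Kv v3} {p q : Rx} (h1 : Valued.v (a - cst p) < 1)
    (h2 : Valued.v (c - cst q) < 1) (r : Rx) :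
    Valued.v (a - cst r * c) < 1 ↔ aeval Mm p = aeval Mm r * aeval Mm q := by
  have h3 : Valued.v ((a - cst p) - cst r * (c - cst q)) < 1 := by
    refine (Valuation.map_sub _ _ _).trans_lt (max_lt h1 ?_)
    rw [map_mul]
    exact (mul_le_of_le_one_left' (cst_le r)).trans_lt h2
  have h4 : Valued.v (a - cst r * c) < 1 ↔ Valued.v (cst (p - r * q)) < 1 := by
    have e1 : a - cst r * c = ((a - cst p) - cst r * (c - cst q)) + cst (p - r * q) := by
      rw [cst_sub, cst_mul]; ring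
    have e2 : cst (p - r * q) = (a - cst r * c) - ((a - cst p) - cst r * (c - cst q)) := by
      rw [cst_sub, cst_mul]; ring
    constructor
    · intro h
      rw [e2]
      exact (Valuation.map_sub _ _ _).trans_lt (max_lt h h3)
    · intro h
      rw [e1]
      exact (Valuation.map_add _ _ _).trans_lt (max_lt h3 h)
  rw [h4, cst_lt, dvd_iff, map_sub, map_mul, sub_eq_zero]

lemma cfun_eq (k : GL (Fin 2) (Kv v3)) {p q : Rx}
    (h1 : Valued.v ((k : Matrix (Fin 2) (Fin 2) (Kv v3)) 0 0 - cst p) < 1)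
    (h2 : Valued.v ((k : Matrix (Fin 2) (Fin 2) (Kv v3)) 1 0 - cst q) < 1) :
    cfun k = ((G (aeval Mm p) (aeval Mm q) : ℤ) : ℂ) := by
  unfold cfun G
  simp only [test h1 h2, map_add, map_pow, aeval_X, map_one]
  simp only [pow_two]
  split_ifs <;> simp

lemma exists_pq {k : GL (Fin 2) (Kv v3)} (hk : k ∈ GO (Kv v3)) :
    ∃ p q : Rx, Valued.v ((k : Matrix (Fin 2) (Fin 2) (Kv v3)) 0 0 - cst p) < 1 ∧
      Valued.v ((k : Matrix (Fin 2) (Fin 2) (Kv v3)) 1 0 - cst q) < 1 ∧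
      ¬ (aeval Mm p = 0 ∧ aeval Mm q = 0) := by
  obtain ⟨p, hp⟩ := approx _ (hk.1 0 0)
  obtain ⟨q, hq⟩ := approx _ (hk.1 1 0)
  refine ⟨p, q, hp, hq, ?_⟩
  rintro ⟨h1, h2⟩
  rw [← dvd_iff, ← cst_lt] at h1 h2
  have h3 : Valued.v ((k : Matrix (Fin 2) (Fin 2) (Kv v3)) 0 0) < 1 := by
    have e : (k : Matrix (Fin 2) (Fin 2) (Kv v3)) 0 0 =
      ((k : Matrix (Fin 2) (Fin 2) (Kv v3)) 0 0 - cst p) + cst p := by ring
    rw [e]
    exact (Valuation.map_add _ _ _).trans_lt (max_lt hp h1)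
  have h4 : Valued.v ((k : Matrix (Fin 2) (Fin 2) (Kv v3)) 1 0) < 1 := by
    have e : (k : Matrix (Fin 2) (Fin 2) (Kv v3)) 1 0 =
      ((k : Matrix (Fin 2) (Fin 2) (Kv v3)) 1 0 - cst q) + cst q := by ring
    rw [e]
    exact (Valuation.map_add _ _ _).trans_lt (max_lt hq h2)
  have h5 := hk.2
  rw [Matrix.det_fin_two] at h5
  have h6 : Valued.v ((k : Matrix (Fin 2) (Fin 2) (Kv v3)) 0 0 *
      (k : Matrix (Fin 2) (Fin 2) (Kv v3)) 1 1 - (k : Matrix (Fin 2) (Fin 2) (Kv v3)) 0 1 *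
      (k : Matrix (Fin 2) (Fin 2) (Kv v3)) 1 0) < 1 := by
    refine (Valuation.map_sub _ _ _).trans_lt (max_lt ?_ ?_)
    · rw [map_mul]; exact (mul_le_of_le_one_right' (hk.1 _ _)).trans_lt h3
    · rw [map_mul]; exact (mul_le_of_le_one_left' (hk.1 _ _)).trans_lt h4
  rw [h5] at h6
  exact lt_irrefl _ h6

end J9

open J9

theorem cfun_n1 (k : GL (Fin 2) (Kv v3)) (hk : k ∈ GO (Kv v3)) :
    cfun (nmat 1 * k) = cfun k := by
  obtain ⟨p, q, hp, hq, -⟩ := exists_pq hk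
  have h0 : ((nmat 1 * k : GL (Fin 2) (Kv v3)) : Matrix (Fin 2) (Fin 2) (Kv v3)) 0 0 =
      (k : Matrix (Fin 2) (Fin 2) (Kv v3)) 0 0 + (k : Matrix (Fin 2) (Fin 2) (Kv v3)) 1 0 := by
    simp [Matrix.mul_apply, Fin.sum_univ_two]
  have h1 : ((nmat 1 * k : GL (Fin 2) (Kv v3)) : Matrix (Fin 2) (Fin 2) (Kv v3)) 1 0 =
      (k : Matrix (Fin 2) (Fin 2) (Kv v3)) 1 0 := by
    simp [Matrix.mul_apply, Fin.sum_univ_two]
  have h2 : Valued.v (((nmat 1 * k : GL (Fin 2) (Kv v3)) : Matrix (Fin 2) (Fin 2) (Kv v3)) 0 0 -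
      cst (p + q)) < 1 := by
    have e : (k : Matrix (Fin 2) (Fin 2) (Kv v3)) 0 0 + (k : Matrix (Fin 2) (Fin 2) (Kv v3)) 1 0 -
        cst (p + q) = ((k : Matrix (Fin 2) (Fin 2) (Kv v3)) 0 0 - cst p) +
          ((k : Matrix (Fin 2) (Fin 2) (Kv v3)) 1 0 - cst q) := by rw [cst_add]; ring
    rw [h0, e]
    exact (Valuation.map_add _ _ _).trans_lt (max_lt hp hq)
  rw [cfun_eq k hp hq, cfun_eq _ h2 (by rw [h1]; exact hq), map_add]
  obtain ⟨b, hb⟩ := el_surj p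
  obtain ⟨c, hc⟩ := el_surj q
  rw [hb, hc, G_n1]

theorem cfun_nt (k : GL (Fin 2) (Kv v3)) (hk : k ∈ GO (Kv v3)) :
    cfun (nmat (cst X) * k) = - cfun k := by
  obtain ⟨p, q, hp, hq, hne⟩ := exists_pq hk
  have h0 : ((nmat (cst X) * k : GL (Fin 2) (Kv v3)) : Matrix (Fin 2) (Fin 2) (Kv v3)) 0 0 =
      (k : Matrix (Fin 2) (Fin 2) (Kv v3)) 0 0 +
        cst X * (k : Matrix (Fin 2) (Fin 2) (Kv v3)) 1 0 := by
    simp [Matrix.mul_apply, Fin.sum_univ_two]
  have h1 : ((nmat (cst X) * k : GL (Fin 2) (Kv v3)) : Matrix (Fin 2) (Fin 2) (Kv v3)) 1 0 =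
      (k : Matrix (Fin 2) (Fin 2) (Kv v3)) 1 0 := by
    simp [Matrix.mul_apply, Fin.sum_univ_two]
  have h2 : Valued.v (((nmat (cst X) * k : GL (Fin 2) (Kv v3)) :
      Matrix (Fin 2) (Fin 2) (Kv v3)) 0 0 - cst (p + X * q)) < 1 := by
    have e : (k : Matrix (Fin 2) (Fin 2) (Kv v3)) 0 0 +
        cst X * (k : Matrix (Fin 2) (Fin 2) (Kv v3)) 1 0 -
        cst (p + X * q) = ((k : Matrix (Fin 2) (Fin 2) (Kv v3)) 0 0 - cst p) +
          cst X * ((k : Matrix (Fin 2) (Fin 2) (Kv v3)) 1 0 - cst q) := by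
      rw [cst_add, cst_mul]; ring
    rw [h0, e]
    refine (Valuation.map_add _ _ _).trans_lt (max_lt hp ?_)
    rw [map_mul]
    exact (mul_le_of_le_one_left' (cst_le X)).trans_lt hq
  rw [cfun_eq k hp hq, cfun_eq _ h2 (by rw [h1]; exact hq), map_add, map_mul, aeval_X]
  obtain ⟨b, hb⟩ := el_surj p
  obtain ⟨c, hc⟩ := el_surj q
  rw [hb, hc] at hne ⊢
  rw [G_nt b c hne]
  push_cast
  rfl

theorem cfun_star (k : GL (Fin 2) (Kv v3)) (hk : k ∈ GO (Kv v3)) :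
    cfun k + cfun (smat * k) + cfun (smat * nmat 1 * k) = 0 := by
  obtain ⟨p, q, hp, hq, hne⟩ := exists_pq hk
  have h0 : ((smat * k : GL (Fin 2) (Kv v3)) : Matrix (Fin 2) (Fin 2) (Kv v3)) 0 0 =
      (k : Matrix (Fin 2) (Fin 2) (Kv v3)) 1 0 := by
    simp [Matrix.mul_apply, Fin.sum_univ_two]
  have h1 : ((smat * k : GL (Fin 2) (Kv v3)) : Matrix (Fin 2) (Fin 2) (Kv v3)) 1 0 =
      (k : Matrix (Fin 2) (Fin 2) (Kv v3)) 0 0 := by
    simp [Matrix.mul_apply, Fin.sum_univ_two]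
  have h0' : ((smat * nmat 1 * k : GL (Fin 2) (Kv v3)) : Matrix (Fin 2) (Fin 2) (Kv v3)) 0 0 =
      (k : Matrix (Fin 2) (Fin 2) (Kv v3)) 1 0 := by
    simp [Matrix.mul_apply, Fin.sum_univ_two]
  have h1' : ((smat * nmat 1 * k : GL (Fin 2) (Kv v3)) : Matrix (Fin 2) (Fin 2) (Kv v3)) 1 0 =
      (k : Matrix (Fin 2) (Fin 2) (Kv v3)) 0 0 + (k : Matrix (Fin 2) (Fin 2) (Kv v3)) 1 0 := by
    simp [Matrix.mul_apply, Fin.sum_univ_two]
  have h2 : Valued.v (((smat * nmat 1 * k : GL (Fin 2) (Kv v3)) :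
      Matrix (Fin 2) (Fin 2) (Kv v3)) 1 0 - cst (p + q)) < 1 := by
    have e : (k : Matrix (Fin 2) (Fin 2) (Kv v3)) 0 0 + (k : Matrix (Fin 2) (Fin 2) (Kv v3)) 1 0 -
        cst (p + q) = ((k : Matrix (Fin 2) (Fin 2) (Kv v3)) 0 0 - cst p) +
          ((k : Matrix (Fin 2) (Fin 2) (Kv v3)) 1 0 - cst q) := by rw [cst_add]; ring
    rw [h1', e]
    exact (Valuation.map_add _ _ _).trans_lt (max_lt hp hq)
  rw [cfun_eq k hp hq, cfun_eq (smat * k) (p := q) (q := p) (by rw [h0]; exact hq)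
    (by rw [h1]; exact hp), cfun_eq (smat * nmat 1 * k) (p := q) (q := p + q)
    (by rw [h0']; exact hq) h2, map_add]
  obtain ⟨b, hb⟩ := el_surj p
  obtain ⟨c, hc⟩ := el_surj q
  rw [hb, hc] at hne ⊢
  have := G_star b c hne
  exact_mod_cast this

theorem cfun_right (k g : GL (Fin 2) (Kv v3)) (hk : k ∈ GO (Kv v3)) (hg : g ∈ KM (Kv v3) 1) :
    cfun (k * g) = cfun k := by
  obtain ⟨p, q, hp, hq, -⟩ := exists_pq hk
  have hlt : WithZero.exp (-((1 : ℕ) : ℤ)) < 1 := by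
    rw [← WithZero.exp_zero, WithZero.exp_lt_exp]
    norm_num
  have hg0 : Valued.v ((g : Matrix (Fin 2) (Fin 2) (Kv v3)) 0 0 - 1) < 1 := by
    have := hg.2 0 0
    rw [Matrix.one_apply_eq] at this
    exact this.trans_lt hlt
  have hg1 : Valued.v ((g : Matrix (Fin 2) (Fin 2) (Kv v3)) 1 0) < 1 := by
    have := hg.2 1 0
    rw [Matrix.one_apply_ne (by decide), sub_zero] at this
    exact this.trans_lt hlt
  have key : ∀ (i : Fin 2) (r : Rx), Valued.v ((k : Matrix (Fin 2) (Fin 2) (Kv v3)) i 0 -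
      cst r) < 1 → Valued.v (((k * g : GL (Fin 2) (Kv v3)) :
        Matrix (Fin 2) (Fin 2) (Kv v3)) i 0 - cst r) < 1 := by
    intro i r hr
    have e : ((k * g : GL (Fin 2) (Kv v3)) : Matrix (Fin 2) (Fin 2) (Kv v3)) i 0 - cst r =
        ((k : Matrix (Fin 2) (Fin 2) (Kv v3)) i 0 - cst r) +
        ((k : Matrix (Fin 2) (Fin 2) (Kv v3)) i 0 *
            ((g : Matrix (Fin 2) (Fin 2) (Kv v3)) 0 0 - 1) +
          (k : Matrix (Fin 2) (Fin 2) (Kv v3)) i 1 *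
            (g : Matrix (Fin 2) (Fin 2) (Kv v3)) 1 0) := by
      rw [Units.val_mul, Matrix.mul_apply, Fin.sum_univ_two]
      ring
    rw [e]
    refine (Valuation.map_add _ _ _).trans_lt (max_lt hr ?_)
    refine (Valuation.map_add _ _ _).trans_lt (max_lt ?_ ?_)
    · rw [map_mul]; exact (mul_le_of_le_one_left' (hk.1 _ _)).trans_lt hg0
    · rw [map_mul]; exact (mul_le_of_le_one_left' (hk.1 _ _)).trans_lt hg1
  rw [cfun_eq k hp hq, cfun_eq _ (key 0 p hp) (key 1 q hq)]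

theorem cfun_ne : ∃ k ∈ GO (Kv v3), cfun k ≠ 0 := by
  refine ⟨⟨!![cst (X ^ 2 + X), 1; 1, 0], !![0, 1; 1, -cst (X ^ 2 + X)],
    by simp [Matrix.one_fin_two], by simp [Matrix.one_fin_two]⟩, ⟨fun i j => ?_, ?_⟩, ?_⟩
  · have := cst_le (X ^ 2 + X)
    fin_cases i <;> fin_cases j <;> simp [this]
  · simp [Matrix.det_fin_two]
  · unfold cfun
    rw [if_pos]
    · norm_num
    · left
      simp

end TH824.BK
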